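import Pool.Agent.Y554.DP.Stm2
import Pool.Agent.H766R2.SecMom

/-!
Second moment method for the dimension of a random set of times.
-/

set_option autoImplicit false

namespace Pool.Agent.Y220.DP

open Finset MeasureTheory

theorem step_pow (a : ℝ) (ha0 : 0 ≤ a) (ha1 : a < 1) (d : ℕ) (hd : 1 ≤ d) :
    ((d:ℝ)) ^ (-a) ≤ (1 / (1 - a)) * ((d:ℝ) ^ (1 - a) - ((d:ℝ) - 1) ^ (1 - a)) := by
  have hd0 : (0:ℝ) < d := by exact_mod_cast hd
  have hd1 : (1:ℝ) ≤ d := by exact_mod_cast hd
  have hb : 0 < 1 - a := by linarith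
  have h1 := rpow_one_add_le_one_add_mul_self (s := -(1/(d:ℝ)))
    (by rw [neg_le_neg_iff, div_le_one hd0]; exact hd1) (p := 1 - a) (by linarith) (by linarith)
  have h2 : (d:ℝ) - 1 = d * (1 + -(1/(d:ℝ))) := by field_simp; ring
  have h3 : 0 ≤ 1 + -(1/(d:ℝ)) := by
    have : 1/(d:ℝ) ≤ 1 := by rw [div_le_one hd0]; exact hd1
    linarith
  have h4 : ((d:ℝ) - 1) ^ (1 - a) ≤ (d:ℝ) ^ (1 - a) * (1 + (1 - a) * -(1/(d:ℝ))) := by
    rw [h2, Real.mul_rpow hd0.le h3]
    exact mul_le_mul_of_nonneg_left h1 (by positivity)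
  have h5 : (d:ℝ) ^ (-a) = (d:ℝ) ^ (1 - a) * (1/(d:ℝ)) := by
    rw [show (-a : ℝ) = (1 - a) + (-1) by ring, Real.rpow_add hd0, Real.rpow_neg_one,
      one_div (d:ℝ)]
  have h6 : (1 - a) * (d:ℝ) ^ (-a) ≤ (d:ℝ) ^ (1 - a) - ((d:ℝ) - 1) ^ (1 - a) := by
    rw [h5]; nlinarith [h4]
  rw [div_mul_eq_mul_div, one_mul, le_div_iff₀ hb]
  linarith

theorem sum_pow (a : ℝ) (ha0 : 0 ≤ a) (ha1 : a < 1) (N : ℕ) :
    ∑ d ∈ Icc 1 N, ((d:ℝ)) ^ (-a) ≤ (1 / (1 - a)) * (N:ℝ) ^ (1 - a) := by
  have hb : 0 < 1 - a := by linarith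
  induction N with
  | zero => simp [Real.zero_rpow hb.ne']
  | succ N ih =>
    rw [Finset.sum_Icc_succ_top (by omega)]
    have h := step_pow a ha0 ha1 (N+1) (by omega)
    have e : (((N+1 : ℕ) : ℝ) - 1) = N := by push_cast; ring
    rw [e] at h
    rw [mul_sub] at h
    linarith

theorem sum_pow' (a : ℝ) (ha0 : 0 ≤ a) (ha1 : a < 1) (N : ℕ) (hN : 1 ≤ N) :
    ∑ d ∈ Icc 1 N, ((d:ℝ) / N) ^ (-a) ≤ N / (1 - a) := by
  have hN0 : (0:ℝ) < N := by exact_mod_cast hN
  have h1 : ∀ d ∈ Icc 1 N, ((d:ℝ) / N) ^ (-a) = (N:ℝ) ^ a * (d:ℝ) ^ (-a) := by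
    intro d _
    rw [Real.div_rpow (Nat.cast_nonneg d) hN0.le, Real.rpow_neg hN0.le, div_inv_eq_mul]
    ring
  rw [Finset.sum_congr rfl h1, ← Finset.mul_sum]
  have h2 := sum_pow a ha0 ha1 N
  have h3 := mul_le_mul_of_nonneg_left h2 (Real.rpow_nonneg hN0.le a)
  refine h3.trans (le_of_eq ?_)
  have h4 : (N:ℝ) ^ a * (N:ℝ) ^ (1 - a) = N := by
    rw [← Real.rpow_add hN0]; simp
  calc (N:ℝ) ^ a * (1 / (1 - a) * (N:ℝ) ^ (1 - a))
      = (N:ℝ) ^ a * (N:ℝ) ^ (1 - a) * (1 / (1 - a)) := by ring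
    _ = N / (1 - a) := by rw [h4]; ring

theorem lowa : Pool.Agent.Y554.DP.S_LOWA := by
  classical
  intro s γ C0 hs hγ hsγ hC0
  have hg1 : 0 < 1 - γ := by linarith
  have hg2 : 0 < 1 - (s + γ) := by linarith
  set b : ℝ := 1 + 2 * C0 / (1 - γ) with hb
  set M0 : ℝ := 1 + 2 * C0 / (1 - (s + γ)) with hM0
  have hb1 : 0 < b := by positivity
  have hM01 : 0 < M0 := by positivity
  set M : ℝ := 8 * b * M0 with hM
  have hMp : 0 < M := by positivity
  refine ⟨2 ^ (-s) / (4 * M), 1 / (8 * b), by positivity, by positivity, ?_⟩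
  intro Ω _ μ _ N E p δ hE hN hp hδ hNp hδN hpr hcor
  have hN0 : (0:ℝ) < N := by exact_mod_cast hN
  set A : ℝ := N * p with hA
  have hA0 : 0 < A := by positivity
  -- indicators
  set I : ℕ → Ω → ℝ := fun i w => (E i).indicator (fun _ => (1:ℝ)) w with hI
  set κ : ℕ → ℕ → ℝ := fun i j => (max (dist ((i:ℝ) / N) ((j:ℝ) / N)) δ) ^ (-s) with hκ
  have hκ0 : ∀ i j, 0 ≤ κ i j := fun i j => by
    simp only [hκ]; exact Real.rpow_nonneg (le_max_of_le_right hδ.le) _
  have hdist : ∀ i j : ℕ, dist ((i:ℝ) / N) ((j:ℝ) / N) = |(i:ℝ) - j| / N := by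
    intro i j
    rw [Real.dist_eq, ← sub_div, abs_div, abs_of_pos hN0]
  have hInm : ∀ i, Measurable (I i) := fun i => measurable_const.indicator (hE i)
  have hII : ∀ i j w, I i w * I j w = (E i ∩ E j).indicator (fun _ => (1:ℝ)) w := by
    intro i j w
    by_cases h1 : w ∈ E i <;> by_cases h2 : w ∈ E j <;> simp [hI, h1, h2]
  set X : Ω → ℝ := fun w => ∑ i ∈ range N, I i w with hX
  set En : Ω → ℝ := fun w => ∑ i ∈ range N, ∑ j ∈ range N, κ i j * (I i w * I j w) with hEn
  have hXm : Measurable X := Finset.measurable_sum _ fun i _ => hInm i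
  have hEnm : Measurable En := Finset.measurable_sum _ fun i _ =>
    Finset.measurable_sum _ fun j _ => ((hInm i).mul (hInm j)).const_mul _
  set G : Set Ω := {w | A / 2 ≤ X w ∧ En w ≤ M * A ^ 2} with hG
  have hGm : MeasurableSet G :=
    (measurableSet_le measurable_const hXm).inter (measurableSet_le hEnm measurable_const)
  have hint1 : ∀ S : Set Ω, MeasurableSet S → Integrable (S.indicator (fun _ => (1:ℝ))) μ :=
    fun S hS => (integrable_const (1:ℝ)).indicator hS
  have hval : ∀ S : Set Ω, MeasurableSet S → ∫ w, S.indicator (fun _ => (1:ℝ)) w ∂μ = μ.real S := by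
    intro S hS
    rw [integral_indicator hS]
    simp
  -- X ^ 2
  have hX2 : ∀ w, X w ^ 2 = ∑ i ∈ range N, ∑ j ∈ range N, I i w * I j w := by
    intro w
    rw [hX, sq, Finset.sum_mul_sum]
  have hEn0 : ∀ w, 0 ≤ En w := by
    intro w
    refine Finset.sum_nonneg fun i _ => Finset.sum_nonneg fun j _ => mul_nonneg (hκ0 i j) ?_
    rw [hII]
    exact Set.indicator_nonneg (fun _ _ => zero_le_one) _
  -- integrals
  have hiI : ∀ i, Integrable (I i) μ := fun i => hint1 _ (hE i)
  have hiII : ∀ i j, Integrable (fun w => I i w * I j w) μ := by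
    intro i j
    have : (fun w => I i w * I j w) = (E i ∩ E j).indicator (fun _ => (1:ℝ)) := by
      funext w; exact hII i j w
    rw [this]; exact hint1 _ ((hE i).inter (hE j))
  have hvII : ∀ i j, ∫ w, I i w * I j w ∂μ = μ.real (E i ∩ E j) := by
    intro i j
    simp_rw [hII]
    exact hval _ ((hE i).inter (hE j))
  have hiX : Integrable X μ := integrable_finsetSum _ fun i _ => hiI i
  have hiX2 : Integrable (fun w => X w ^ 2) μ := by
    have : (fun w => X w ^ 2) = fun w => ∑ i ∈ range N, ∑ j ∈ range N, I i w * I j w := by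
      funext w; exact hX2 w
    rw [this]
    exact integrable_finsetSum _ fun i _ => integrable_finsetSum _ fun j _ => hiII i j
  have hiEn : Integrable En μ :=
    integrable_finsetSum _ fun i _ => integrable_finsetSum _ fun j _ => (hiII i j).const_mul _
  have hvX : ∫ w, X w ∂μ = A := by
    rw [hX, integral_finsetSum _ fun i _ => hiI i]
    rw [Finset.sum_congr rfl (g := fun _ => p)]
    · simp [hA]
    · intro i hi
      rw [← hpr i (Finset.mem_range.1 hi)]
      exact hval _ (hE i)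
  have hvX2 : ∫ w, X w ^ 2 ∂μ ≤ b * A ^ 2 := by
    have e : (fun w => X w ^ 2) = fun w => ∑ i ∈ range N, ∑ j ∈ range N, I i w * I j w := by
      funext w; exact hX2 w
    rw [e, integral_finsetSum _ fun i _ => integrable_finsetSum _ fun j _ => hiII i j]
    have e2 : ∀ i ∈ range N, ∫ w, ∑ j ∈ range N, I i w * I j w ∂μ =
        ∑ j ∈ range N, μ.real (E i ∩ E j) := by
      intro i _
      rw [integral_finsetSum _ fun j _ => hiII i j]
      exact Finset.sum_congr rfl fun j _ => hvII i j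
    rw [Finset.sum_congr rfl e2]
    have h := H766SM.pair_sum N (fun i j => μ.real (E i ∩ E j))
      (fun d => C0 * p ^ 2 * ((d:ℝ) / N) ^ (-γ)) p
      (fun d => by positivity)
      (fun i hi => by simp only [Set.inter_self]; exact (hpr i hi).le)
      (fun i j hij hj => by
        have hi : i < N := by omega
        have e3 : ((j - i : ℕ) : ℝ) = (j:ℝ) - i := by
          rw [Nat.cast_sub hij.le]
        have hlt : (i:ℝ) < j := by exact_mod_cast hij
        constructor
        · have := hcor i j hi hj hij.ne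
          rw [abs_sub_comm, abs_of_pos (by linarith), ← e3] at this
          exact this
        · have := hcor j i hj hi hij.ne'
          rw [abs_of_pos (by linarith), ← e3] at this
          exact this)
    refine h.trans ?_
    rw [← Finset.mul_sum]
    have h2 := sum_pow' γ hγ (by linarith) N hN
    have h3 : 2 * N * (C0 * p ^ 2 * ∑ i ∈ Icc 1 N, ((i:ℝ) / N) ^ (-γ)) ≤
        2 * N * (C0 * p ^ 2 * (N / (1 - γ))) := by
      gcongr
    have h4 : 2 * N * (C0 * p ^ 2 * (N / (1 - γ))) = 2 * C0 / (1 - γ) * A ^ 2 := by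
      rw [hA]; ring
    have h5 : A ≤ A ^ 2 := by nlinarith
    rw [hb]
    rw [h4] at h3
    linarith
  have hvEn : ∫ w, En w ∂μ ≤ M0 * A ^ 2 := by
    rw [hEn, integral_finsetSum _ fun i _ => integrable_finsetSum _ fun j _ =>
      (hiII i j).const_mul _]
    have e2 : ∀ i ∈ range N, ∫ w, ∑ j ∈ range N, κ i j * (I i w * I j w) ∂μ =
        ∑ j ∈ range N, κ i j * μ.real (E i ∩ E j) := by
      intro i _
      rw [integral_finsetSum _ fun j _ => (hiII i j).const_mul _]
      refine Finset.sum_congr rfl fun j _ => ?_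
      rw [integral_const_mul, hvII i j]
    rw [Finset.sum_congr rfl e2]
    have key : ∀ i j : ℕ, i < N → j < N → i ≠ j → κ i j * μ.real (E i ∩ E j) ≤
        C0 * p ^ 2 * (|(i:ℝ) - j| / N) ^ (-(s + γ)) := by
      intro i j hi hj hij
      have hpos : 0 < |(i:ℝ) - j| / N := by
        refine div_pos (abs_pos.2 ?_) hN0
        rw [sub_ne_zero]
        exact_mod_cast hij
      have h1 : κ i j ≤ (|(i:ℝ) - j| / N) ^ (-s) := by
        simp only [hκ]
        rw [hdist]
        exact Real.rpow_le_rpow_of_nonpos hpos (le_max_left _ _) (by linarith)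
      have h2 := hcor i j hi hj hij
      calc κ i j * μ.real (E i ∩ E j)
          ≤ (|(i:ℝ) - j| / N) ^ (-s) * (C0 * p ^ 2 * (|(i:ℝ) - j| / N) ^ (-γ)) :=
            mul_le_mul h1 h2 measureReal_nonneg (Real.rpow_nonneg hpos.le _)
        _ = C0 * p ^ 2 * ((|(i:ℝ) - j| / N) ^ (-s) * (|(i:ℝ) - j| / N) ^ (-γ)) := by ring
        _ = C0 * p ^ 2 * (|(i:ℝ) - j| / N) ^ (-(s + γ)) := by
            rw [← Real.rpow_add hpos]; congr 2; ring
    have h := H766SM.pair_sum N (fun i j => κ i j * μ.real (E i ∩ E j))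
      (fun d => C0 * p ^ 2 * ((d:ℝ) / N) ^ (-(s + γ))) (δ ^ (-s) * p)
      (fun d => by positivity)
      (fun i hi => by
        simp only [Set.inter_self, hκ, dist_self]
        rw [max_eq_right hδ.le, hpr i hi])
      (fun i j hij hj => by
        have hi : i < N := by omega
        have e3 : ((j - i : ℕ) : ℝ) = (j:ℝ) - i := by
          rw [Nat.cast_sub hij.le]
        have hlt : (i:ℝ) < j := by exact_mod_cast hij
        constructor
        · have := key i j hi hj hij.ne
          rw [abs_sub_comm, abs_of_pos (by linarith), ← e3] at this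
          exact this
        · have := key j i hj hi hij.ne'
          rw [abs_of_pos (by linarith), ← e3] at this
          exact this)
    refine h.trans ?_
    rw [← Finset.mul_sum]
    have h2 := sum_pow' (s + γ) (by linarith) hsγ N hN
    have h3 : 2 * N * (C0 * p ^ 2 * ∑ i ∈ Icc 1 N, ((i:ℝ) / N) ^ (-(s + γ))) ≤
        2 * N * (C0 * p ^ 2 * (N / (1 - (s + γ)))) := by
      gcongr
    have h4 : 2 * N * (C0 * p ^ 2 * (N / (1 - (s + γ)))) =
        2 * C0 / (1 - (s + γ)) * A ^ 2 := by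
      rw [hA]; ring
    have h5 : N * (δ ^ (-s) * p) ≤ A ^ 2 := by
      have : N * (δ ^ (-s) * p) = δ ^ (-s) * A := by rw [hA]; ring
      rw [this, sq]
      exact mul_le_mul_of_nonneg_right hδN hA0.le
    rw [hM0]
    rw [h4] at h3
    linarith
  -- the pointwise inequality
  set σ : ℝ := 1 / (2 * b * A) with hσ
  have hpt : ∀ w, 2 * σ * (X w - A / 2) - σ ^ 2 * (X w - A / 2) ^ 2 - (1 / (M * A ^ 2)) * En w ≤
      G.indicator (fun _ => (1:ℝ)) w := by
    intro w
    have hMA : 0 < M * A ^ 2 := by positivity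
    have h0 : 0 ≤ (1 / (M * A ^ 2)) * En w := mul_nonneg (by positivity) (hEn0 w)
    have h1 : 2 * σ * (X w - A / 2) - σ ^ 2 * (X w - A / 2) ^ 2 ≤ 1 := by
      nlinarith [sq_nonneg (1 - σ * (X w - A / 2))]
    have hσ0 : 0 < σ := by positivity
    by_cases hw : w ∈ G
    · rw [Set.indicator_of_mem hw]
      linarith
    · rw [Set.indicator_of_notMem hw]
      by_cases h2 : A / 2 ≤ X w
      · have h3 : M * A ^ 2 < En w := by
          by_contra hcon
          exact hw ⟨h2, not_lt.1 hcon⟩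
        have h4 : 1 ≤ (1 / (M * A ^ 2)) * En w := by
          rw [one_div, inv_mul_eq_div, le_div_iff₀ hMA]
          linarith
        linarith
      · rw [not_le] at h2
        have h3 : 2 * σ * (X w - A / 2) ≤ 0 := by
          have : 0 < 2 * σ := by positivity
          nlinarith
        have h4 : 0 ≤ σ ^ 2 * (X w - A / 2) ^ 2 := by positivity
        linarith
  have hiY : Integrable (fun w => X w - A / 2) μ := hiX.sub (integrable_const _)
  have hY2 : ∀ w, (X w - A / 2) ^ 2 = X w ^ 2 - A * X w + A ^ 2 / 4 := by intro w; ring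
  have hiY2 : Integrable (fun w => (X w - A / 2) ^ 2) μ := by
    simp_rw [hY2]
    exact (hiX2.sub (hiX.const_mul _)).add (integrable_const _)
  have hvY : ∫ w, (X w - A / 2) ∂μ = A / 2 := by
    rw [integral_sub hiX (integrable_const _), hvX]
    simp
    ring
  have hvY2 : ∫ w, (X w - A / 2) ^ 2 ∂μ ≤ b * A ^ 2 := by
    simp_rw [hY2]
    have hi1 : Integrable (fun w => X w ^ 2 - A * X w) μ := hiX2.sub (hiX.const_mul _)
    rw [integral_add hi1 (integrable_const _),
      integral_sub hiX2 (hiX.const_mul _), integral_const_mul, hvX]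
    simp
    nlinarith [hvX2, sq_nonneg A]
  have hP : 1 / (8 * b) ≤ μ.real G := by
    have h3 := integral_mono (((hiY.const_mul (2 * σ)).sub (hiY2.const_mul (σ ^ 2))).sub
      (hiEn.const_mul (1 / (M * A ^ 2)))) (hint1 G hGm) hpt
    rw [hval G hGm] at h3
    refine le_trans ?_ h3
    rw [integral_sub' ((hiY.const_mul (2 * σ)).sub (hiY2.const_mul (σ ^ 2)))
      (hiEn.const_mul (1 / (M * A ^ 2))), integral_sub' (hiY.const_mul (2 * σ))
      (hiY2.const_mul (σ ^ 2)), integral_const_mul, integral_const_mul, integral_const_mul, hvY]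
    have h4 : σ ^ 2 * ∫ w, (X w - A / 2) ^ 2 ∂μ ≤ σ ^ 2 * (b * A ^ 2) :=
      mul_le_mul_of_nonneg_left hvY2 (sq_nonneg σ)
    have h5 : 1 / (M * A ^ 2) * ∫ w, En w ∂μ ≤ 1 / (M * A ^ 2) * (M0 * A ^ 2) :=
      mul_le_mul_of_nonneg_left hvEn (by positivity)
    have h6 : 2 * σ * (A / 2) = 1 / (2 * b) := by
      rw [hσ]; field_simp
    have h7 : σ ^ 2 * (b * A ^ 2) = 1 / (4 * b) := by
      rw [hσ]; field_simp; norm_num
    have h8 : 1 / (M * A ^ 2) * (M0 * A ^ 2) = 1 / (8 * b) := by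
      rw [hM]; field_simp
    rw [h6]
    rw [h7] at h4
    rw [h8] at h5
    have h9 : 1 / (2 * b) - 1 / (4 * b) - 1 / (8 * b) = 1 / (8 * b) := by
      field_simp; norm_num
    linarith
  refine hP.trans (measureReal_mono ?_)
  -- on the event `G`
  intro w hw
  obtain ⟨hw1, hw2⟩ := hw
  set T : Finset ℕ := (range N).filter (fun i => w ∈ E i) with hT
  have hinj : Function.Injective (fun i : ℕ => (i:ℝ) / N) := by
    intro i j hij
    simp only at hij
    rw [div_left_inj' hN0.ne'] at hij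
    exact_mod_cast hij
  set S : Finset ℝ := T.image (fun i : ℕ => (i:ℝ) / N) with hS
  have hXT : X w = T.card := by
    simp only [hX, hI, Set.indicator_apply]
    rw [Finset.sum_ite, hT]
    simp
  have hcard : (S.card : ℝ) = X w := by
    rw [hS, Finset.card_image_of_injective _ hinj, hXT]
  have hSne : S.Nonempty := by
    rw [← Finset.card_pos]
    have : (0:ℝ) < S.card := by rw [hcard]; linarith
    exact_mod_cast this
  have hsum : ∑ x ∈ S, ∑ y ∈ S, (max (dist x y) δ) ^ (-s) = En w := by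
    rw [hS, Finset.sum_image (fun x _ y _ h => hinj h)]
    have e1 : ∀ i ∈ T, ∑ y ∈ T.image (fun i : ℕ => (i:ℝ) / N),
        (max (dist ((i:ℝ) / N) y) δ) ^ (-s) = ∑ j ∈ T, κ i j := by
      intro i _
      rw [Finset.sum_image (fun x _ y _ h => hinj h)]
    rw [Finset.sum_congr rfl e1]
    simp only [hEn]
    rw [hT, Finset.sum_filter]
    refine Finset.sum_congr rfl fun i _ => ?_
    by_cases hi : w ∈ E i
    · rw [if_pos hi, Finset.sum_filter]
      refine Finset.sum_congr rfl fun j _ => ?_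
      by_cases hj : w ∈ E j
      · simp [hI, hi, hj]
      · simp [hI, hi, hj]
    · rw [if_neg hi]
      symm
      refine Finset.sum_eq_zero fun j _ => ?_
      simp [hI, hi]
  have := H389R2.Dim.good_of_energy (t := s) (δ := δ) (E := 4 * M) hδ hs.le (by positivity)
    (K := {t : ℝ | ∃ i : ℕ, i < N ∧ t = (i:ℝ) / N ∧ w ∈ E i}) S hSne
    (by
      intro x hx
      rw [hS, Finset.coe_image] at hx
      obtain ⟨i, hi, rfl⟩ := hx
      rw [hT, Finset.coe_filter] at hi
      exact ⟨i, Finset.mem_range.1 hi.1, rfl, hi.2⟩)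
    (by
      rw [hsum, hcard]
      refine hw2.trans ?_
      have : A ^ 2 ≤ 4 * X w ^ 2 := by nlinarith
      nlinarith)
  exact this

end Pool.Agent.Y220.DP
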